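import Pool.Agent.K3h87.HH.Low

/-!
# Asymptotic Clifford bound
-/

set_option autoImplicit false

namespace Pool.Agent.K3h87.HH

open MvPolynomial Pool.Agent.H932R2

theorem dense_pairs {α : ℝ} (hα : Irrational α) (hα0 : 0 < α) {u δ : ℝ} (hu : 0 ≤ u) (hδ : 0 < δ) :
    ∃ m' d' : ℕ, 1 ≤ m' ∧ u < d' - α * m' ∧ (d' : ℝ) - α * m' < u + δ := by
  have h1 : DenseRange (fun k : ℤ => k • ((α : ℝ) : AddCircle (1 : ℝ))) := by
    rw [AddCircle.denseRange_zsmul_coe_iff]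
    simpa using hα
  have h2 : DenseRange (fun k : ℕ => k • ((α : ℝ) : AddCircle (1 : ℝ))) :=
    denseRange_zsmul_iff_nsmul.1 h1
  have hopen : IsOpen ((fun t : ℝ => (t : AddCircle (1 : ℝ))) '' Set.Ioo (-u - δ - α) (-u - α)) :=
    QuotientAddGroup.isOpenMap_coe _ isOpen_Ioo
  obtain ⟨k, hk⟩ := h2.exists_mem_open hopen ⟨_, ⟨-u - α - δ / 2, ⟨by linarith, by linarith⟩, rfl⟩⟩
  obtain ⟨t, ht, htk⟩ := hk
  have h3 : ((t - k • α : ℝ) : AddCircle (1 : ℝ)) = 0 := by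
    rw [AddCircle.coe_sub, AddCircle.coe_nsmul, ← htk, sub_self]
  rw [AddCircle.coe_eq_zero_iff] at h3
  obtain ⟨z, hz⟩ := h3
  rw [zsmul_eq_mul, mul_one, nsmul_eq_mul] at hz
  obtain ⟨ht1, ht2⟩ := ht
  have hk0 : (0 : ℝ) ≤ k * α := mul_nonneg (Nat.cast_nonneg _) hα0.le
  have hz0 : (z : ℝ) < 0 := by linarith
  have hz1 : z < 0 := by exact_mod_cast hz0
  refine ⟨k + 1, (-z).toNat, by omega, ?_, ?_⟩
  · have e1 : (((-z).toNat : ℕ) : ℝ) = -z := by
      have : (((-z).toNat : ℕ) : ℤ) = -z := Int.toNat_of_nonneg (by omega)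
      exact_mod_cast this
    rw [e1]
    push_cast
    linarith
  · have e1 : (((-z).toNat : ℕ) : ℝ) = -z := by
      have : (((-z).toNat : ℕ) : ℤ) = -z := Int.toNat_of_nonneg (by omega)
      exact_mod_cast this
    rw [e1]
    push_cast
    linarith

variable {L : Type} [Field L]

theorem ee_eq {n m d : ℕ} {s x : ℝ} (hss : s * s = n) (hd : (d : ℝ) = x + s * m) :
    ee n m d = 1 + (x ^ 2 + 3 * x) / 2 + s * m * (x - (s - 3) / 2) := by
  unfold ee
  rw [hd]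
  linear_combination (m : ℝ) * (m + 1) / 2 * hss

theorem asym {n : ℕ} (hn : 10 ≤ n) (hsq : ¬ IsSquare n) {ε : ℝ} (hε : 0 < ε) :
    ∃ (C : ℝ) (M : ℕ), ∀ m : ℕ, 1 ≤ m → ∀ P : Fin n → Fin 2 → L,
      (∀ k : ℕ, 1 ≤ k → k ≤ m + M → Good n P k) → ∀ d : ℕ,
      (Module.finrank L (V (JJ P m) d) : ℝ) ≤
        max 0 (ee n m d) + ((n - 3 * √(n : ℝ)) / 2 + ε) * m + C := by
  obtain ⟨s, hs⟩ : ∃ s, s = √(n : ℝ) := ⟨_, rfl⟩
  have hnR : (10 : ℝ) ≤ n := by exact_mod_cast hn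
  have hss : s * s = n := by rw [hs]; exact Real.mul_self_sqrt (by linarith)
  have hs3 : 3 < s := by
    rw [hs]
    apply Real.lt_sqrt_of_sq_lt
    linarith
  have hirr : Irrational s := by
    rw [hs, irrational_sqrt_natCast_iff]
    exact hsq
  obtain ⟨δ, hδ⟩ : ∃ δ, δ = ε / (2 * s) := ⟨_, rfl⟩
  have hδ0 : 0 < δ := by rw [hδ]; positivity
  have hsδ : s * (2 * δ) = ε := by rw [hδ]; field_simp
  obtain ⟨w, hw⟩ : ∃ w, w = s - 3 := ⟨_, rfl⟩
  have hw0 : 0 < w := by linarith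
  have hex : ∀ j : ℕ, ∃ m' d' : ℕ, 1 ≤ m' ∧ w / 2 + j * δ < d' - s * m' ∧
      (d' : ℝ) - s * m' < w / 2 + j * δ + δ := fun j =>
    dense_pairs hirr (by linarith) (by positivity) hδ0
  choose f g hf1 hf2 hf3 using hex
  obtain ⟨J, hJ⟩ : ∃ J : ℕ, w / 2 / δ ≤ J := exists_nat_ge _
  obtain ⟨M, hM⟩ : ∃ M, M = ∑ j ∈ Finset.range (J + 2), f j := ⟨_, rfl⟩
  have hfM : ∀ j, j ≤ J + 1 → f j ≤ M := by
    intro j hj
    rw [hM]
    exact Finset.single_le_sum (f := f) (fun _ _ => Nat.zero_le _) (Finset.mem_range.2 (by omega))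
  refine ⟨1 + (w ^ 2 + 3 * w) / 2 + w * (w + 2 * δ) + s * M * w, M, fun m hm P h d => ?_⟩
  have hm0 : (0 : ℝ) ≤ m := Nat.cast_nonneg m
  have hmax : 0 ≤ max 0 (ee n m d) := le_max_left _ _
  have hmax' : ee n m d ≤ max 0 (ee n m d) := le_max_right _ _
  rw [← hs]
  have hrhs : ((n : ℝ) - 3 * s) / 2 + ε = s * (w / 2 + 2 * δ) := by
    rw [hw]
    linear_combination (-1 / 2 : ℝ) * hss - hsδ
  rw [hrhs]
  have hC0 : 0 ≤ 1 + (w ^ 2 + 3 * w) / 2 + w * (w + 2 * δ) + s * M * w := by positivity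
  have hB0 : 0 ≤ s * (w / 2 + 2 * δ) * m := by positivity
  obtain ⟨x, hx⟩ : ∃ x : ℝ, x = d - s * m := ⟨_, rfl⟩
  have hd : (d : ℝ) = x + s * m := by rw [hx]; ring
  rcases lt_or_ge x 0 with hx0 | hx0
  · have h1 := (expDim_iff P m d).1 (h m hm (by omega) d (Or.inl (by
      refine lt_of_le_of_lt (min_le_left _ _) ?_
      rw [← hs, hd]
      linarith)))
    have h2 := cast_expected n m d
    rcases le_total (n * (m + 1).choose 2) ((d + 2).choose 2) with hle | hle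
    · rw [h1, Nat.cast_sub hle, h2]
      have : ((d : ℝ) + 1) * (d + 2) / 2 - (n : ℝ) * (m * (m + 1) / 2) = ee n m d := rfl
      rw [this]
      linarith
    · rw [h1, Nat.sub_eq_zero_of_le hle, Nat.cast_zero]
      linarith
  rcases lt_or_ge w x with hxw | hxw
  · have h1 := upper_far (n := n) (m := m) (d := d) hn (h m hm (by omega)) (by
      rw [← hs, hd]
      linarith)
    rw [h1]
    linarith
  -- the window
  obtain ⟨j, hjJ, hj1, hj2⟩ : ∃ j : ℕ, j ≤ J + 1 ∧ w - x ≤ w / 2 + j * δ ∧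
      w / 2 + j * δ + δ ≤ max (w / 2) (w - x) + 2 * δ := by
    rcases le_total (w / 2) x with h1 | h1
    · refine ⟨0, by omega, by push_cast; linarith, ?_⟩
      have := le_max_left (w / 2) (w - x)
      push_cast
      linarith
    · refine ⟨⌈(w / 2 - x) / δ⌉₊, ?_, ?_, ?_⟩
      · rw [Nat.ceil_le]
        have : (w / 2 - x) / δ ≤ w / 2 / δ := by
          apply div_le_div_of_nonneg_right _ hδ0.le
          linarith
        push_cast
        linarith
      · have h2 := Nat.le_ceil ((w / 2 - x) / δ)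
        rw [div_le_iff₀ hδ0] at h2
        linarith
      · have h2 := Nat.ceil_lt_add_one (a := (w / 2 - x) / δ) (div_nonneg (by linarith) hδ0.le)
        have h3 : (⌈(w / 2 - x) / δ⌉₊ : ℝ) * δ < ((w / 2 - x) / δ + 1) * δ :=
          mul_lt_mul_of_pos_right h2 hδ0
        rw [add_mul, div_mul_cancel₀ _ hδ0.ne', one_mul] at h3
        have := le_max_right (w / 2) (w - x)
        linarith
  obtain ⟨x', hx'⟩ : ∃ x' : ℝ, x' = g j - s * f j := ⟨_, rfl⟩
  have hg : ((g j : ℕ) : ℝ) = x' + s * f j := by rw [hx']; ring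
  have hj3 := hf2 j
  have hj4 := hf3 j
  rw [← hx'] at hj3 hj4
  have hjδ : (0 : ℝ) ≤ j * δ := by positivity
  have hx'w : w / 2 < x' := by linarith
  have hfj0 : (0 : ℝ) ≤ (f j : ℝ) := Nat.cast_nonneg _
  have hee' : 1 ≤ ee n (f j) (g j) := by
    rw [ee_eq hss hg, ← hw]
    have : 0 ≤ s * (f j : ℝ) * (x' - w / 2) :=
      mul_nonneg (mul_nonneg (by linarith) hfj0) (by linarith)
    have h7 : 0 ≤ x' ^ 2 := sq_nonneg _
    linarith
  have h5 := main_three (n := n) (m := m) (m' := f j) (d := d) (d' := g j) hn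
    (h (f j) (hf1 j) (by have := hfM j hjJ; omega))
    (h (m + f j) (by omega) (by have := hfM j hjJ; omega)) hee' (by
      rw [← hs, hd, hg]
      linarith)
  refine h5.trans (max_le (by linarith) ?_)
  have hfMR : (f j : ℝ) ≤ M := by exact_mod_cast hfM j hjJ
  have hA : (d : ℝ) * (g j : ℝ) - n * m * (f j : ℝ) = x * x' + s * m * x' + s * (f j : ℝ) * x := by
    rw [hd, hg]
    linear_combination (m : ℝ) * (f j : ℝ) * hss
  rw [hA]
  have hmaxw : max (w / 2) (w - x) ≤ w := max_le (by linarith) (by linarith)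
  have b1 : x * x' ≤ w * (w + 2 * δ) :=
    mul_le_mul hxw (by linarith) (by linarith) hw0.le
  have b2 : s * (f j : ℝ) * x ≤ s * M * w := by
    apply mul_le_mul _ hxw hx0 (by positivity)
    exact mul_le_mul_of_nonneg_left hfMR (by linarith)
  have hsm : 0 ≤ s * (m : ℝ) := mul_nonneg (by linarith) hm0
  rcases le_total (w / 2) x with h1 | h1
  · have h6 : max (w / 2) (w - x) = w / 2 := max_eq_left (by linarith)
    rw [h6] at hj2
    have b3 : s * m * x' ≤ s * m * (w / 2 + 2 * δ) :=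
      mul_le_mul_of_nonneg_left (by linarith) hsm
    have b4 : 0 ≤ 1 + (w ^ 2 + 3 * w) / 2 := by positivity
    linarith
  · have h6 : max (w / 2) (w - x) = w - x := max_eq_right (by linarith)
    rw [h6] at hj2
    rw [ee_eq hss hd, ← hw]
    have b3 : s * m * (x - w / 2 + x') ≤ s * m * (w / 2 + 2 * δ) :=
      mul_le_mul_of_nonneg_left (by linarith) hsm
    have b4 : x ^ 2 ≤ w ^ 2 := pow_le_pow_left₀ hx0 hxw 2
    have hmax2 : 0 ≤ max 0 (1 + (x ^ 2 + 3 * x) / 2 + s * m * (x - w / 2)) := le_max_left _ _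
    linarith

end Pool.Agent.K3h87.HH
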