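import Mathlib

/-!
# Convexity of the Hilbert function of an ideal of points
-/

set_option autoImplicit false

namespace Pool.Agent.K3h87.HH

open MvPolynomial

variable {K : Type*} [Field K]

/-- the forms of degree `d` in `I` -/
noncomputable def V (I : Ideal (MvPolynomial (Fin 3) K)) (d : ℕ) :
    Submodule K (MvPolynomial (Fin 3) K) :=
  homogeneousSubmodule (Fin 3) K d ⊓ Submodule.restrictScalars K I

theorem mem_V {I : Ideal (MvPolynomial (Fin 3) K)} {d : ℕ} {F : MvPolynomial (Fin 3) K} :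
    F ∈ V I d ↔ F.IsHomogeneous d ∧ F ∈ I := by
  unfold V
  rw [Submodule.mem_inf, mem_homogeneousSubmodule, Submodule.restrictScalars_mem]

theorem V_fin (I : Ideal (MvPolynomial (Fin 3) K)) (d : ℕ) : FiniteDimensional K (V I d) := by
  have h3 : Module.Finite K ↥(homogeneousSubmodule (Fin 3) K d) :=
    Module.Finite.iff_fg.2 (homogeneousSubmodule_fg _ _ d)
  exact Submodule.finiteDimensional_of_le (S₁ := V I d)
    (S₂ := homogeneousSubmodule (Fin 3) K d) inf_le_left

theorem V_mul {I : Ideal (MvPolynomial (Fin 3) K)} {d : ℕ} (i : Fin 3)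
    {F : MvPolynomial (Fin 3) K} (hF : F ∈ V I d) : X i * F ∈ V I (d + 1) := by
  rw [mem_V] at hF ⊢
  refine ⟨?_, Ideal.mul_mem_left _ _ hF.2⟩
  have := (isHomogeneous_X K i).mul hF.1
  rwa [add_comm] at this

theorem homog_of_mul {d : ℕ} {i : Fin 3} {F : MvPolynomial (Fin 3) K}
    (h : (X i * F).IsHomogeneous (d + 1)) : F.IsHomogeneous d := by
  intro s hs
  have h1 : coeff (Finsupp.single i 1 + s) (X i * F) ≠ 0 := by
    rw [coeff_X_mul]
    exact hs
  have h2 := h h1
  rw [map_add] at h2
  have h3 : Finsupp.weight (1 : Fin 3 → ℕ) (Finsupp.single i 1) = 1 := by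
    rw [Finsupp.weight_apply, Finsupp.sum_single_index (by simp)]
    simp
  rw [h3] at h2
  omega

/-- a polynomial whose monomials all contain `X 2` -/
theorem exists_of_coeff {F : MvPolynomial (Fin 3) K} (h : ∀ s, s 2 = 0 → coeff s F = 0) :
    ∃ G, F = X 2 * G := by
  have h1 : (X 2 : MvPolynomial (Fin 3) K) ∣ F := by
    rw [X_dvd_iff_modMonomial_eq_zero]
    ext s
    rw [coeff_zero]
    by_cases hs : Finsupp.single 2 1 ≤ s
    · exact coeff_modMonomial_of_le _ hs
    · rw [coeff_modMonomial_of_not_le _ hs]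
      apply h
      by_contra h2
      apply hs
      rw [Finsupp.single_le_iff]
      omega
  exact h1

/-- the map `(f, g) ↦ X₀ f + X₂ g` -/
noncomputable def T (I : Ideal (MvPolynomial (Fin 3) K)) (d : ℕ) :
    (V I d × V I d) →ₗ[K] V I (d + 1) where
  toFun p := ⟨X 0 * p.1.1 + X 2 * p.2.1, Submodule.add_mem _ (V_mul 0 p.1.2) (V_mul 2 p.2.2)⟩
  map_add' p q := by
    apply Subtype.ext
    simp only [Prod.fst_add, Prod.snd_add, Submodule.coe_add]
    ring
  map_smul' a p := by
    apply Subtype.ext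
    simp only [Prod.smul_fst, Prod.smul_snd, Submodule.coe_smul, RingHom.id_apply, smul_add,
      mul_smul_comm]

/-- the map `w ↦ (X₂ w, - X₀ w)` -/
noncomputable def S (I : Ideal (MvPolynomial (Fin 3) K)) (d : ℕ) :
    V I d →ₗ[K] (V I (d + 1) × V I (d + 1)) where
  toFun w := (⟨X 2 * w.1, V_mul 2 w.2⟩, ⟨-(X 0 * w.1), Submodule.neg_mem _ (V_mul 0 w.2)⟩)
  map_add' p q := by
    apply Prod.ext <;> apply Subtype.ext
    · simp only [Submodule.coe_add, Prod.fst_add]
      ring
    · simp only [Submodule.coe_add, Prod.snd_add]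
      ring
  map_smul' a p := by
    apply Prod.ext <;> apply Subtype.ext
    · simp only [Submodule.coe_smul, Prod.smul_fst, RingHom.id_apply, mul_smul_comm]
    · simp only [Submodule.coe_smul, Prod.smul_snd, RingHom.id_apply, mul_smul_comm, smul_neg]

theorem ker_T_le (I : Ideal (MvPolynomial (Fin 3) K))
    (hI : ∀ (d : ℕ) (F : MvPolynomial (Fin 3) K), F.IsHomogeneous d → X 2 * F ∈ I → F ∈ I) (d : ℕ) :
    LinearMap.ker (T I (d + 1)) ≤ LinearMap.range (S I d) := by
  rintro ⟨f, g⟩ h
  rw [LinearMap.mem_ker] at h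
  have h1 : X 0 * f.1 + X 2 * g.1 = 0 := congrArg Subtype.val h
  have h2 : ∃ w, f.1 = X 2 * w := by
    apply exists_of_coeff
    intro s hs
    have h3 := congrArg (coeff (Finsupp.single 0 1 + s)) h1
    rw [coeff_add, coeff_X_mul, coeff_zero, coeff_X_mul'] at h3
    rw [if_neg (by
      rw [Finsupp.mem_support_iff, not_not]
      simp [hs]), add_zero] at h3
    exact h3
  obtain ⟨w, hw⟩ := h2
  have hf := mem_V.1 f.2
  have hwh : w.IsHomogeneous d := homog_of_mul (by rw [← hw]; exact hf.1)
  have hwI : w ∈ I := hI d w hwh (by rw [← hw]; exact hf.2)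
  refine ⟨⟨w, mem_V.2 ⟨hwh, hwI⟩⟩, ?_⟩
  have h3 : g.1 = -(X 0 * w) := by
    have h4 : (X 2 : MvPolynomial (Fin 3) K) * (X 0 * w + g.1) = 0 := by
      rw [hw] at h1
      linear_combination h1
    rcases mul_eq_zero.1 h4 with h5 | h5
    · exact absurd h5 (X_ne_zero _)
    · linear_combination h5
  apply Prod.ext <;> apply Subtype.ext
  · exact hw.symm
  · exact h3.symm

theorem conv (I : Ideal (MvPolynomial (Fin 3) K))
    (hI : ∀ (d : ℕ) (F : MvPolynomial (Fin 3) K), F.IsHomogeneous d → X 2 * F ∈ I → F ∈ I) (d : ℕ) :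
    2 * Module.finrank K (V I (d + 1)) ≤
      Module.finrank K (LinearMap.range (T I (d + 1))) + Module.finrank K (V I d) := by
  have := V_fin I d
  have := V_fin I (d + 1)
  have := V_fin I (d + 1 + 1)
  have h1 := LinearMap.finrank_range_add_finrank_ker (T I (d + 1))
  rw [Module.finrank_prod] at h1
  have h2 := Submodule.finrank_mono (ker_T_le I hI d)
  have h3 := LinearMap.finrank_range_le (S I d)
  omega

theorem conv' (I : Ideal (MvPolynomial (Fin 3) K))
    (hI : ∀ (d : ℕ) (F : MvPolynomial (Fin 3) K), F.IsHomogeneous d → X 2 * F ∈ I → F ∈ I) (d : ℕ) :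
    2 * Module.finrank K (V I (d + 1)) ≤
      Module.finrank K (V I (d + 2)) + Module.finrank K (V I d) := by
  have := V_fin I (d + 1 + 1)
  have h1 := conv I hI d
  have h2 := Submodule.finrank_le (LinearMap.range (T I (d + 1)))
  have h3 : Module.finrank K (V I (d + 1 + 1)) = Module.finrank K (V I (d + 2)) := rfl
  omega

/-- one more if there are no forms of degree `d` but forms of degree `d + 1` -/
theorem conv_one (I : Ideal (MvPolynomial (Fin 3) K))
    (hI : ∀ (d : ℕ) (F : MvPolynomial (Fin 3) K), F.IsHomogeneous d → X 2 * F ∈ I → F ∈ I) (d : ℕ)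
    (h0 : Module.finrank K (V I d) = 0) (h1 : Module.finrank K (V I (d + 1)) ≠ 0) :
    2 * Module.finrank K (V I (d + 1)) + 1 ≤ Module.finrank K (V I (d + 2)) := by
  have := V_fin I d
  have := V_fin I (d + 1)
  have := V_fin I (d + 1 + 1)
  by_contra hlt
  have h2 := conv I hI d
  have h3 := Submodule.finrank_le (LinearMap.range (T I (d + 1)))
  have h4 : Module.finrank K (V I (d + 1 + 1)) = Module.finrank K (V I (d + 2)) := rfl
  have h5 : LinearMap.range (T I (d + 1)) = ⊤ := by
    apply Submodule.eq_top_of_finrank_eq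
    omega
  have hV0 : ∀ w ∈ V I d, w = 0 := by
    intro w hw
    have := Module.finrank_zero_iff.1 h0
    have h6 := Subsingleton.elim (⟨w, hw⟩ : V I d) 0
    exact congrArg Subtype.val h6
  have key : ∀ k : ℕ, ∀ f ∈ V I (d + 1), ∀ s : Fin 3 →₀ ℕ, s 2 = 0 → coeff s f ≠ 0 → k ≤ s 0 := by
    intro k
    induction k with
    | zero => intro f _ s _ _; exact Nat.zero_le _
    | succ k ih =>
      intro f hf s hs hc
      have h6 : (⟨X 1 * f, V_mul 1 hf⟩ : V I (d + 1 + 1)) ∈ LinearMap.range (T I (d + 1)) := by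
        rw [h5]
        exact Submodule.mem_top
      obtain ⟨⟨a, b⟩, hab⟩ := h6
      have h7 : X 0 * a.1 + X 2 * b.1 = X 1 * f := congrArg Subtype.val hab
      have h8 := congrArg (coeff (Finsupp.single 1 1 + s)) h7
      rw [coeff_X_mul, coeff_add, coeff_X_mul', coeff_X_mul'] at h8
      have hn2 : ¬ (2 : Fin 3) ∈ (Finsupp.single 1 1 + s : Fin 3 →₀ ℕ).support := by
        rw [Finsupp.mem_support_iff, not_not]
        simp [hs]
      rw [if_neg hn2, add_zero] at h8
      by_cases hs0 : (0 : Fin 3) ∈ (Finsupp.single 1 1 + s).support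
      · rw [if_pos hs0] at h8
        have h9 := ih a.1 a.2 (Finsupp.single 1 1 + s - Finsupp.single 0 1) (by
          simp [hs]) (by rw [h8]; exact hc)
        have h10 : (Finsupp.single 1 1 + s - Finsupp.single 0 1 : Fin 3 →₀ ℕ) 0 = s 0 - 1 := by
          simp
        rw [h10] at h9
        rw [Finsupp.mem_support_iff] at hs0
        have h11 : (Finsupp.single 1 1 + s : Fin 3 →₀ ℕ) 0 = s 0 := by simp
        rw [h11] at hs0
        omega
      · rw [if_neg hs0] at h8
        exact absurd h8.symm hc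
  have hall : ∀ f ∈ V I (d + 1), f = 0 := by
    intro f hf
    have hfh := (mem_V.1 hf)
    have h6 : ∃ w, f = X 2 * w := by
      apply exists_of_coeff
      intro s hs
      by_contra hc
      have h7 := key (d + 2) f hf s hs hc
      have h8 := hfh.1 hc
      rw [Finsupp.weight_apply, Finsupp.sum_fintype _ _ (fun i => by simp), Fin.sum_univ_three] at h8
      simp at h8
      omega
    obtain ⟨w, rfl⟩ := h6
    have hwh : w.IsHomogeneous d := homog_of_mul hfh.1
    rw [hV0 w (mem_V.2 ⟨hwh, hI d w hwh hfh.2⟩), mul_zero]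
  apply h1
  rw [Module.finrank_zero_iff]
  refine ⟨fun a b => Subtype.ext ?_⟩
  rw [hall a.1 a.2, hall b.1 b.2]

end Pool.Agent.K3h87.HH
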