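import Pool.Agent.K3h87.HH.Mult
import Pool.Agent.TH641.NW.End2

/-!
# Bounds in all degrees at `n ≥ 10` general points
-/

set_option autoImplicit false

namespace Pool.Agent.K3h87.HH

open MvPolynomial Pool.Agent.H932R2

variable {L : Type} [Field L]

/-- the ideal of the forms with multiplicity `m` at the points `P i` -/
noncomputable def JJ {n : ℕ} (P : Fin n → Fin 2 → L) (m : ℕ) : Ideal (MvPolynomial (Fin 3) L) :=
  ⨅ i : Fin n, (Ideal.span ({X 0 - C (P i 0) * X 2, X 1 - C (P i 1) * X 2} :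
    Set (MvPolynomial (Fin 3) L))) ^ m

theorem JJ_sat {n : ℕ} (P : Fin n → Fin 2 → L) (m d : ℕ) (F : MvPolynomial (Fin 3) L)
    (hF : F.IsHomogeneous d) (h : X 2 * F ∈ JJ P m) : F ∈ JJ P m := by
  unfold JJ at h ⊢
  rw [Ideal.mem_iInf] at h ⊢
  intro i
  have h1 := h i
  have h2 : (X 2 * F) ∈ homogeneousSubmodule (Fin 3) L (d + 1) := by
    rw [mem_homogeneousSubmodule]
    have := (isHomogeneous_X L (2 : Fin 3)).mul hF
    rwa [add_comm] at this
  have h3 : F ∈ homogeneousSubmodule (Fin 3) L d := by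
    rw [mem_homogeneousSubmodule]
    exact hF
  have h4 := (mem_ptIdeal_iff (a := P i 0) (b := P i 1) (m := m) h2).1 h1
  rw [map_mul, deh_X2, one_mul] at h4
  exact (mem_ptIdeal_iff (a := P i 0) (b := P i 1) (m := m) h3).2 h4

theorem JJ_mul {n : ℕ} (P : Fin n → Fin 2 → L) (a b : ℕ) :
    ∀ f ∈ JJ P a, ∀ g ∈ JJ P b, f * g ∈ JJ P (a + b) := by
  intro f hf g hg
  unfold JJ at hf hg ⊢
  rw [Ideal.mem_iInf] at hf hg ⊢
  intro i
  rw [Ideal.IsTwoSided.pow_add]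
  exact Ideal.mul_mem_mul (hf i) (hg i)

theorem dcrit_pos {n m : ℕ} (hn : 10 ≤ n) (hm : 1 ≤ m) : 1 ≤ TH641.NW.dcrit n m := by
  unfold TH641.NW.dcrit
  apply Nat.le_floor
  have hnR : (10 : ℝ) ≤ n := by exact_mod_cast hn
  have h3 : 3 ≤ √(n : ℝ) := Real.le_sqrt_of_sq_le (by linarith)
  have h4 : 0 ≤ min (√(n : ℝ) - 3) (2 / 3 + 1 / (4 * √(n : ℝ))) := by
    refine le_min (by linarith) (by positivity)
  have h5 : (1 : ℝ) ≤ m := by exact_mod_cast hm
  have h6 : 3 * 3 ≤ √(n : ℝ) * (2 * m + 1) := by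
    apply mul_le_mul h3 (by linarith) (by norm_num) (by linarith)
  push_cast
  linarith

/-- the combinatorial part of the bound in the critical degree -/
theorem crit_arith {j N x a b c0 c1 c2 : ℕ} (h1 : c1 = c0 + (j + 2)) (h2 : c2 = c1 + (j + 3))
    (ha : a = c0 - N) (hb : b = c2 - N) (hx : 2 * x ≤ b + a) (hx' : a = 0 → x ≠ 0 → 2 * x + 1 ≤ b) :
    x = 0 ∨ x + N ≤ c1 ∨ 2 * x + N ≤ c1 + (j + 2) := by
  omega

theorem choose_succ (j : ℕ) : (j + 1 + 2).choose 2 = (j + 2).choose 2 + (j + 2) := by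
  have h1 : (j + 1 + 2).choose 2 = (j + 2).choose 1 + (j + 2).choose 2 := by
    rw [show j + 1 + 2 = (j + 2) + 1 by ring]
    rw [Nat.choose_succ_succ' (j + 2) 1]
  rw [h1, Nat.choose_one_right]
  ring

theorem cast_expected (n m d : ℕ) : (((d + 2).choose 2 : ℕ) : ℝ) - ((n * (m + 1).choose 2 : ℕ) : ℝ) =
    ((d : ℝ) + 1) * (d + 2) / 2 - n * (m * (m + 1) / 2) := by
  push_cast
  rw [Nat.cast_choose_two, Nat.cast_choose_two]
  push_cast
  ring

theorem expDim_iff {n : ℕ} (P : Fin n → Fin 2 → L) (m d : ℕ) :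
    H932R3.ExpDim L (fun _ => m) P d ↔
      Module.finrank L (V (JJ P m) d) = (d + 2).choose 2 - n * (m + 1).choose 2 := by
  unfold H932R3.ExpDim
  rw [Finset.sum_const, Finset.card_univ, Fintype.card_fin, smul_eq_mul]
  rfl

theorem main_one {n m : ℕ} (hn : 10 ≤ n) (hm : 1 ≤ m) (P : Fin n → Fin 2 → L)
    (h : ∀ d : ℕ, d ≠ TH641.NW.dcrit n m → H932R3.ExpDim L (fun _ => m) P d) (d : ℕ) :
    (Module.finrank L (V (JJ P m) d) : ℝ) ≤
      max 0 (((d : ℝ) + 1) * (d + 2) / 2 - n * (m * (m + 1) / 2)) +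
      max 0 (((d : ℝ) + 1 - |((d : ℝ) + 1) * (d + 2) / 2 - n * (m * (m + 1) / 2)|) / 2) := by
  rw [← cast_expected]
  set e : ℝ := (((d + 2).choose 2 : ℕ) : ℝ) - ((n * (m + 1).choose 2 : ℕ) : ℝ) with he
  have hm1 : 0 ≤ max 0 e := le_max_left _ _
  have hm2 : 0 ≤ max 0 (((d : ℝ) + 1 - |e|) / 2) := le_max_left _ _
  by_cases hd : d = TH641.NW.dcrit n m
  · have hd1 := dcrit_pos hn hm
    obtain ⟨j, rfl⟩ : ∃ j, d = j + 1 := ⟨d - 1, by omega⟩
    have h0 := (expDim_iff P m j).1 (h j (by omega))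
    have h2 := (expDim_iff P m (j + 2)).1 (h (j + 2) (by omega))
    have c1 := conv' (JJ P m) (JJ_sat P m) j
    have c2 := conv_one (JJ P m) (JJ_sat P m) j
    have key := crit_arith (j := j) (N := n * (m + 1).choose 2) (choose_succ j)
      (choose_succ (j + 1)) h0 h2 c1 c2
    rcases key with k1 | k1 | k1
    · rw [k1, Nat.cast_zero]
      linarith
    · have k2 : ((Module.finrank L (V (JJ P m) (j + 1)) : ℕ) : ℝ) +
          ((n * (m + 1).choose 2 : ℕ) : ℝ) ≤ (((j + 1 + 2).choose 2 : ℕ) : ℝ) := by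
        exact_mod_cast k1
      have k3 : e ≤ max 0 e := le_max_right _ _
      linarith
    · have k2 : 2 * ((Module.finrank L (V (JJ P m) (j + 1)) : ℕ) : ℝ) +
          ((n * (m + 1).choose 2 : ℕ) : ℝ) ≤ (((j + 1 + 2).choose 2 : ℕ) : ℝ) + (j + 2) := by
        exact_mod_cast k1
      have k4 : (((j + 1 : ℕ) : ℝ) + 1 - |e|) / 2 ≤ max 0 ((((j + 1 : ℕ) : ℝ) + 1 - |e|) / 2) :=
        le_max_right _ _
      have k5 : (((j + 1 : ℕ) : ℝ) + 1) = j + 2 := by push_cast; ring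
      rcases le_total 0 e with hpos | hneg
      · have k3 : e ≤ max 0 e := le_max_right _ _
        have k6 : |e| = e := abs_of_nonneg hpos
        rw [k6] at k4 ⊢
        linarith
      · have k6 : |e| = -e := abs_of_nonpos hneg
        rw [k6] at k4 ⊢
        linarith
  · have h0 := (expDim_iff P m d).1 (h d hd)
    rw [h0]
    have h1 : (((d + 2).choose 2 - n * (m + 1).choose 2 : ℕ) : ℝ) ≤ max 0 e := by
      rcases le_total (n * (m + 1).choose 2) ((d + 2).choose 2) with hle | hle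
      · rw [Nat.cast_sub hle]
        exact le_max_right _ _
      · rw [Nat.sub_eq_zero_of_le hle]
        push_cast
        exact le_max_left _ _
    linarith

theorem main_two {n m k d : ℕ} (hn : 10 ≤ n) (hm : 1 ≤ m) (hk : 1 ≤ k) (P : Fin n → Fin 2 → L)
    (h : ∀ d : ℕ, min (√(n : ℝ) - 3) (2 / 3 + 1 / (4 * √(n : ℝ))) <
      (2 * d + 3) - √(n : ℝ) * (2 * ((k * m : ℕ) : ℝ) + 1) → H932R3.ExpDim L (fun _ => k * m) P d)
    (hd : √(n : ℝ) - 3 < k * (d - √(n : ℝ) * m)) :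
    (Module.finrank L (V (JJ P m) d) : ℝ) ≤
      1 + (k * ((d : ℝ) ^ 2 - n * m ^ 2) - (n * m - 3 * d)) / 2 := by
  have hnR : (10 : ℝ) ≤ n := by exact_mod_cast hn
  have hkR : (1 : ℝ) ≤ k := by exact_mod_cast hk
  have hmR : (1 : ℝ) ≤ m := by exact_mod_cast hm
  have h3 : 3 ≤ √(n : ℝ) := Real.le_sqrt_of_sq_le (by linarith)
  have hss : √(n : ℝ) * √(n : ℝ) = n := Real.mul_self_sqrt (by linarith)
  have hwin : √(n : ℝ) - 3 < (2 * ((k * d : ℕ) : ℝ) + 3) - √(n : ℝ) * (2 * ((k * m : ℕ) : ℝ) + 1) := by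
    push_cast
    nlinarith
  have h1 := (expDim_iff P (k * m) (k * d)).1 (h (k * d) (lt_of_le_of_lt (min_le_left _ _) hwin))
  -- the expected dimension for (k m, k d) is positive
  have hE := cast_expected n (k * m) (k * d)
  have hpos : 0 < (((k * d : ℕ) : ℝ) + 1) * ((k * d : ℕ) + 2) / 2 -
      n * (((k * m : ℕ) : ℝ) * ((k * m : ℕ) + 1) / 2) := by
    have hA : √(n : ℝ) * (2 * ((k * m : ℕ) : ℝ) + 1) < 2 * ((k * d : ℕ) : ℝ) + 3 := by linarith
    have hB : 0 ≤ √(n : ℝ) * (2 * ((k * m : ℕ) : ℝ) + 1) := by positivity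
    have hC : (√(n : ℝ) * (2 * ((k * m : ℕ) : ℝ) + 1)) ^ 2 < (2 * ((k * d : ℕ) : ℝ) + 3) ^ 2 :=
      pow_lt_pow_left₀ hA hB (by norm_num)
    rw [mul_pow, pow_two (√(n : ℝ)), hss] at hC
    nlinarith
  have hle : n * (k * m + 1).choose 2 ≤ (k * d + 2).choose 2 := by
    have : ((n * (k * m + 1).choose 2 : ℕ) : ℝ) ≤ (((k * d + 2).choose 2 : ℕ) : ℝ) := by linarith
    exact_mod_cast this
  have h2 : (Module.finrank L (V (JJ P (k * m)) (k * d)) : ℝ) =
      (((k * d : ℕ) : ℝ) + 1) * ((k * d : ℕ) + 2) / 2 -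
      n * (((k * m : ℕ) : ℝ) * ((k * m : ℕ) + 1) / 2) := by
    rw [h1, Nat.cast_sub hle, hE]
  have hEk : (((k * d : ℕ) : ℝ) + 1) * ((k * d : ℕ) + 2) / 2 -
      n * (((k * m : ℕ) : ℝ) * ((k * m : ℕ) + 1) / 2) =
      1 + k * ((k * ((d : ℝ) ^ 2 - n * m ^ 2) - (n * m - 3 * d)) / 2) := by
    push_cast
    ring
  rcases Nat.eq_zero_or_pos (Module.finrank L (V (JJ P m) d)) with h0 | h0
  · rw [h0]
    push_cast
    rw [hEk] at hpos
    by_contra hneg
    push Not at hneg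
    nlinarith
  · obtain ⟨k', rfl⟩ : ∃ k', k = k' + 1 := ⟨k - 1, by omega⟩
    have h5 := hopf_pow (JJ P) (JJ_mul P) m d h0 k'
    have h6 : (((k' + 1 : ℕ) : ℝ)) * ((Module.finrank L (V (JJ P m) d) : ℝ) - 1) + 1 ≤
        (Module.finrank L (V (JJ P ((k' + 1) * m)) ((k' + 1) * d)) : ℝ) := by
      have h7 : (((k' + 1) * (Module.finrank L (V (JJ P m) d) - 1) + 1 : ℕ) : ℝ) ≤
          (Module.finrank L (V (JJ P ((k' + 1) * m)) ((k' + 1) * d)) : ℝ) := by exact_mod_cast h5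
      rw [Nat.cast_add, Nat.cast_mul, Nat.cast_sub (by omega : 1 ≤ _)] at h7
      exact_mod_cast h7
    rw [h2, hEk] at h6
    have hk0 : (0 : ℝ) < ((k' + 1 : ℕ) : ℝ) := by linarith
    have h8 : (((k' + 1 : ℕ) : ℝ)) * ((Module.finrank L (V (JJ P m) d) : ℝ) - 1) ≤
        ((k' + 1 : ℕ) : ℝ) * ((((k' + 1 : ℕ) : ℝ) * ((d : ℝ) ^ 2 - n * m ^ 2) -
          (n * m - 3 * d)) / 2) := by linarith
    have h9 := le_of_mul_le_mul_left h8 hk0
    linarith

end Pool.Agent.K3h87.HH
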