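import Pool.Agent.K3h87.HH.Conv

/-!
# Products of spaces of forms
-/

set_option autoImplicit false

namespace Pool.Agent.K3h87.HH

open Polynomial

variable {K : Type*} [Field K]

/-- the degrees of the nonzero elements of `U` -/
def degs (U : Submodule K K[X]) : Set ℕ := {j | ∃ f ∈ U, f ≠ 0 ∧ f.natDegree = j}

theorem le_degs (U : Submodule K K[X]) (D : Finset ℕ) (h : degs U ⊆ D) :
    FiniteDimensional K U ∧ Module.finrank K U ≤ D.card := by
  let φ : U →ₗ[K] (D → K) := LinearMap.pi fun j => (lcoeff K j.1).comp U.subtype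
  have hφ : Function.Injective φ := by
    rw [← LinearMap.ker_eq_bot, LinearMap.ker_eq_bot']
    intro f hf
    by_contra hne
    have hne' : f.1 ≠ 0 := fun h0 => hne (Subtype.ext h0)
    have hmem : f.1.natDegree ∈ D := h ⟨f.1, f.2, hne', rfl⟩
    have h1 := congrFun hf ⟨_, hmem⟩
    have h2 : f.1.coeff f.1.natDegree = 0 := h1
    exact hne' (leadingCoeff_eq_zero.1 h2)
  have hfin : FiniteDimensional K U := FiniteDimensional.of_injective φ hφ
  refine ⟨hfin, ?_⟩
  have h1 := LinearMap.finrank_le_finrank_of_injective hφ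
  rw [Module.finrank_fintype_fun_eq_card, Fintype.card_coe] at h1
  exact h1

theorem degs_le (U : Submodule K K[X]) [FiniteDimensional K U] (D : Finset ℕ)
    (h : (D : Set ℕ) ⊆ degs U) : D.card ≤ Module.finrank K U := by
  classical
  have hex : ∀ j : D, ∃ f : U, f.1 ≠ 0 ∧ f.1.natDegree = j.1 := by
    intro j
    obtain ⟨f, hf, h0, hd⟩ := h j.2
    exact ⟨⟨f, hf⟩, h0, hd⟩
  choose g hg using hex
  have hli : LinearIndependent K g := by
    rw [Fintype.linearIndependent_iff]
    intro c hc
    by_contra hne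
    push Not at hne
    have hS : (Finset.univ.filter fun j : D => c j ≠ 0).Nonempty := by
      obtain ⟨j, hj⟩ := hne
      exact ⟨j, by simp [hj]⟩
    obtain ⟨j0, hj0, hmax⟩ := Finset.exists_max_image _ (fun j : D => j.1) hS
    have h1 := congrArg (fun u : U => (u : K[X]).coeff j0.1) hc
    simp only [Submodule.coe_sum, Submodule.coe_smul, finsetSum_coeff, coeff_smul,
      Submodule.coe_zero, coeff_zero, smul_eq_mul] at h1
    rw [Finset.sum_eq_single j0] at h1
    · have h2 : (g j0).1.coeff j0.1 ≠ 0 := by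
        have h3 := hg j0
        have h4 : (g j0).1.coeff (g j0).1.natDegree ≠ 0 := fun h0 => h3.1 (leadingCoeff_eq_zero.1 h0)
        rwa [h3.2] at h4
      rcases mul_eq_zero.1 h1 with h5 | h5
      · exact (Finset.mem_filter.1 hj0).2 h5
      · exact h2 h5
    · intro j _ hj
      by_cases hcj : c j = 0
      · rw [hcj, zero_mul]
      · have h3 := hmax j (by simp [hcj])
        have h4 : j.1 < j0.1 := lt_of_le_of_ne h3 (fun h => hj (Subtype.ext h))
        rw [coeff_eq_zero_of_natDegree_lt, mul_zero]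
        rw [(hg j).2]
        exact h4
    · intro h
      exact absurd (Finset.mem_univ _) h
  have h1 := hli.fintype_card_le_finrank
  rwa [Fintype.card_coe] at h1

open Pointwise in
/-- Hopf's lemma for subspaces of `K[X]` -/
theorem hopf_poly (U W Z : Submodule K K[X]) [FiniteDimensional K U] [FiniteDimensional K W]
    [FiniteDimensional K Z] (h : ∀ f ∈ U, ∀ g ∈ W, f * g ∈ Z)
    (hU : 0 < Module.finrank K U) (hW : 0 < Module.finrank K W) :
    Module.finrank K U + Module.finrank K W ≤ Module.finrank K Z + 1 := by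
  classical
  have hfinite : ∀ (Y : Submodule K K[X]) [FiniteDimensional K Y], (degs Y).Finite := by
    intro Y _
    by_contra hinf
    obtain ⟨D, hD, hcard⟩ := Set.Infinite.exists_subset_card_eq hinf (Module.finrank K Y + 1)
    have := degs_le Y D hD
    omega
  obtain ⟨DU, hDU⟩ := (hfinite U).exists_finset_coe
  obtain ⟨DW, hDW⟩ := (hfinite W).exists_finset_coe
  have h1 := (le_degs U DU hDU.ge).2
  have h2 := (le_degs W DW hDW.ge).2
  have hne1 : DU.Nonempty := by
    rw [← Finset.card_pos]; omega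
  have hne2 : DW.Nonempty := by
    rw [← Finset.card_pos]; omega
  have h3 := cauchy_davenport_add_of_linearOrder_isCancelAdd hne1 hne2
  have h4 : ((DU + DW : Finset ℕ) : Set ℕ) ⊆ degs Z := by
    intro j hj
    rw [Finset.mem_coe, Finset.mem_add] at hj
    obtain ⟨a, ha, b, hb, rfl⟩ := hj
    have ha' : a ∈ degs U := by rw [← hDU]; exact ha
    have hb' : b ∈ degs W := by rw [← hDW]; exact hb
    obtain ⟨f, hf, hf0, rfl⟩ := ha'
    obtain ⟨g, hg, hg0, rfl⟩ := hb'
    exact ⟨f * g, h f hf g hg, mul_ne_zero hf0 hg0, natDegree_mul hf0 hg0⟩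
  have h5 := degs_le Z _ h4
  omega

end Pool.Agent.K3h87.HH
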