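import Pool.Agent.K3h87.HH.Final

/-!
# The lower bound, and products with a fixed system
-/

set_option autoImplicit false

namespace Pool.Agent.K3h87.HH

open MvPolynomial Pool.Agent.H932R2

/-- an exponent with `X₂`-part zero -/
noncomputable def expo (a b : ℕ) : Fin 3 →₀ ℕ := Finsupp.single 0 a + Finsupp.single 1 b

theorem line {K : Type*} [Field K] (I : Ideal (MvPolynomial (Fin 3) K))
    (hI : ∀ (d : ℕ) (F : MvPolynomial (Fin 3) K), F.IsHomogeneous d → X 2 * F ∈ I → F ∈ I) (d : ℕ) :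
    Module.finrank K (V I (d + 1)) ≤ Module.finrank K (V I d) + (d + 2) := by
  have := V_fin I d
  have := V_fin I (d + 1)
  let ρ : V I (d + 1) →ₗ[K] (Fin (d + 2) → K) :=
    LinearMap.pi fun i => (lcoeff K (expo i.1 (d + 1 - i.1))).comp (V I (d + 1)).subtype
  let S2 : V I d →ₗ[K] V I (d + 1) :=
    { toFun := fun w => ⟨X 2 * w.1, V_mul 2 w.2⟩
      map_add' := fun v w => Subtype.ext (mul_add _ _ _)
      map_smul' := fun a w => Subtype.ext (mul_smul_comm _ _ _) }
  have hker : LinearMap.ker ρ ≤ LinearMap.range S2 := by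
    intro f hf
    rw [LinearMap.mem_ker] at hf
    have hfm := mem_V.1 f.2
    have h2 : ∃ w, f.1 = X 2 * w := by
      apply exists_of_coeff
      intro s hs
      by_contra hc
      have h3 := sum_of_homog hfm.1 hc
      have h4 : expo (s 0) (d + 1 - s 0) = s := by
        unfold expo
        ext i
        fin_cases i
        · simp
        · simp
          omega
        · simp [hs]
      have h5 := congrFun hf ⟨s 0, by omega⟩
      have h6 : coeff (expo (s 0) (d + 1 - s 0)) f.1 = 0 := h5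
      rw [h4] at h6
      exact hc h6
    obtain ⟨w, hw⟩ := h2
    have hwh : w.IsHomogeneous d := homog_of_mul (by rw [← hw]; exact hfm.1)
    have hwI : w ∈ I := hI d w hwh (by rw [← hw]; exact hfm.2)
    exact ⟨⟨w, mem_V.2 ⟨hwh, hwI⟩⟩, Subtype.ext hw.symm⟩
  have h1 := LinearMap.finrank_range_add_finrank_ker ρ
  have h2 := Submodule.finrank_mono hker
  have h3 := LinearMap.finrank_range_le S2
  have h4 := Submodule.finrank_le (LinearMap.range ρ)
  rw [Module.finrank_fin_fun] at h4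
  omega

variable {L : Type} [Field L]

/-- `P` has the expected dimensions for multiplicity `m` outside the window. -/
def Good (n : ℕ) (P : Fin n → Fin 2 → L) (m : ℕ) : Prop :=
  ∀ d : ℕ, (min (√(n : ℝ) - 3) (2 / 3 + 9 / (4 * √(n : ℝ))) <
      √(n : ℝ) * (2 * m + 1) - (2 * d + 3) ∨
    min (√(n : ℝ) - 3) (2 / 3 + 1 / (4 * √(n : ℝ))) < (2 * d + 3) - √(n : ℝ) * (2 * m + 1)) →
  H932R3.ExpDim L (fun _ => m) P d

theorem good_crit {n m : ℕ} (hn : 10 ≤ n) {P : Fin n → Fin 2 → L} (h : Good n P m) :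
    ∀ d : ℕ, d ≠ TH641.NW.dcrit n m → H932R3.ExpDim L (fun _ => m) P d := by
  intro d hd
  apply h d
  have h1 := TH641.NW.window_lt hn
  have h2 : 0 ≤ (√(n : ℝ) * (2 * m + 1) - 3 + min (√(n : ℝ) - 3) (2 / 3 + 1 / (4 * √(n : ℝ)))) / 2 := by
    have hnR : (10 : ℝ) ≤ n := by exact_mod_cast hn
    have h3 : 3 ≤ √(n : ℝ) := Real.le_sqrt_of_sq_le (by linarith)
    have h4 : 0 ≤ min (√(n : ℝ) - 3) (2 / 3 + 1 / (4 * √(n : ℝ))) := by
      refine le_min (by linarith) (by positivity)
    have h5 : (0 : ℝ) ≤ m := Nat.cast_nonneg m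
    have h6 : √(n : ℝ) * 1 ≤ √(n : ℝ) * (2 * m + 1) :=
      mul_le_mul_of_nonneg_left (by linarith) (by linarith)
    linarith
  rcases lt_or_gt_of_ne hd with hlt | hgt
  · left
    have h3 := Nat.floor_le h2
    have h4 : (d : ℝ) + 1 ≤ (TH641.NW.dcrit n m : ℝ) := by exact_mod_cast hlt
    unfold TH641.NW.dcrit at h4
    linarith
  · right
    have h3 := Nat.lt_of_floor_lt hgt
    linarith

/-- the number `(d+1)(d+2)/2 - n m(m+1)/2` -/
noncomputable def ee (n m d : ℕ) : ℝ := ((d : ℝ) + 1) * (d + 2) / 2 - n * (m * (m + 1) / 2)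

theorem lower {n m : ℕ} (hn : 10 ≤ n) {P : Fin n → Fin 2 → L} (h : Good n P m) (d : ℕ) :
    ee n m d ≤ (Module.finrank L (V (JJ P m) d) : ℝ) := by
  unfold ee
  rw [← cast_expected]
  have hnat : (d + 2).choose 2 ≤ Module.finrank L (V (JJ P m) d) + n * (m + 1).choose 2 := by
    by_cases hd : d = TH641.NW.dcrit n m
    · have h2 := (expDim_iff P m (d + 1)).1 (good_crit hn h (d + 1) (by omega))
      have h3 := line (JJ P m) (JJ_sat P m) d
      have h4 := choose_succ d
      omega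
    · have h2 := (expDim_iff P m d).1 (good_crit hn h d hd)
      omega
  have : (((d + 2).choose 2 : ℕ) : ℝ) ≤
      ((Module.finrank L (V (JJ P m) d) + n * (m + 1).choose 2 : ℕ) : ℝ) := by exact_mod_cast hnat
  rw [Nat.cast_add] at this
  linarith

theorem upper_far {n m d : ℕ} (hn : 10 ≤ n) {P : Fin n → Fin 2 → L} (h : Good n P m)
    (hd : √(n : ℝ) - 3 < d - √(n : ℝ) * m) :
    (Module.finrank L (V (JJ P m) d) : ℝ) = ee n m d := by
  have hnR : (10 : ℝ) ≤ n := by exact_mod_cast hn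
  have h3 : 3 ≤ √(n : ℝ) := Real.le_sqrt_of_sq_le (by linarith)
  have hss : √(n : ℝ) * √(n : ℝ) = n := Real.mul_self_sqrt (by linarith)
  have h1 := (expDim_iff P m d).1 (h d (Or.inr (lt_of_le_of_lt (min_le_left _ _) (by linarith))))
  have hE := cast_expected n m d
  have hpos : 0 ≤ ee n m d := by
    unfold ee
    have hm0 : (0 : ℝ) ≤ m := Nat.cast_nonneg m
    have hA : √(n : ℝ) * (2 * (m : ℝ) + 1) ≤ 2 * (d : ℝ) + 3 := by linarith
    have hB : 0 ≤ √(n : ℝ) * (2 * (m : ℝ) + 1) := by positivity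
    have hC : (√(n : ℝ) * (2 * (m : ℝ) + 1)) ^ 2 ≤ (2 * (d : ℝ) + 3) ^ 2 :=
      pow_le_pow_left₀ hB hA 2
    rw [mul_pow, pow_two (√(n : ℝ)), hss] at hC
    nlinarith
  have hle : n * (m + 1).choose 2 ≤ (d + 2).choose 2 := by
    have : ((n * (m + 1).choose 2 : ℕ) : ℝ) ≤ (((d + 2).choose 2 : ℕ) : ℝ) := by
      unfold ee at hpos
      linarith
    exact_mod_cast this
  rw [h1, Nat.cast_sub hle, hE]
  rfl

theorem main_three {n m m' d d' : ℕ} (hn : 10 ≤ n) {P : Fin n → Fin 2 → L}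
    (h' : Good n P m') (h : Good n P (m + m')) (he : 1 ≤ ee n m' d')
    (hd : √(n : ℝ) - 3 < ((d : ℝ) + d') - √(n : ℝ) * (m + m')) :
    (Module.finrank L (V (JJ P m) d) : ℝ) ≤
      max 0 (ee n m d + ((d : ℝ) * d' - n * m * m')) := by
  rcases Nat.eq_zero_or_pos (Module.finrank L (V (JJ P m) d)) with h0 | h0
  · rw [h0, Nat.cast_zero]
    exact le_max_left _ _
  · have h1 := lower hn h' d'
    have h2 : 0 < Module.finrank L (V (JJ P m') d') := by
      have : (0 : ℝ) < (Module.finrank L (V (JJ P m') d') : ℝ) := by linarith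
      exact_mod_cast this
    have h3 := hopf (JJ P m) (JJ P m') (JJ P (m + m')) d d' (JJ_mul P m m') h0 h2
    have h4 := upper_far (d := d + d') hn h (by push_cast; exact hd)
    have h5 : (Module.finrank L (V (JJ P m) d) : ℝ) + (Module.finrank L (V (JJ P m') d') : ℝ) ≤
        (Module.finrank L (V (JJ P (m + m')) (d + d')) : ℝ) + 1 := by exact_mod_cast h3
    rw [h4] at h5
    have h6 : ee n (m + m') (d + d') = ee n m d + ee n m' d' - 1 + ((d : ℝ) * d' - n * m * m') := by
      unfold ee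
      push_cast
      ring
    refine le_trans ?_ (le_max_right _ _)
    linarith

end Pool.Agent.K3h87.HH
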