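import Pool.Agent.K3h87.HH.Hopf

/-!
# Products of spaces of forms, II
-/

set_option autoImplicit false

namespace Pool.Agent.K3h87.HH

open Polynomial

variable {K : Type*} [Field K]

/-- Kronecker substitution -/
noncomputable def kr (K : Type*) [Field K] (D : ℕ) : MvPolynomial (Fin 3) K →ₐ[K] K[X] :=
  MvPolynomial.aeval ![X ^ D, X, 1]

theorem kr_monomial (D : ℕ) (α : Fin 3 →₀ ℕ) (a : K) :
    kr K D (MvPolynomial.monomial α a) = C a * X ^ (D * α 0 + α 1) := by
  rw [kr, MvPolynomial.aeval_monomial, Finsupp.prod_fintype _ _ (fun i => by simp),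
    Fin.prod_univ_three]
  simp [pow_add, pow_mul]

theorem kr_eq_sum (D : ℕ) (F : MvPolynomial (Fin 3) K) :
    kr K D F = ∑ α ∈ F.support, C (F.coeff α) * X ^ (D * α 0 + α 1) := by
  conv_lhs => rw [F.as_sum]
  rw [map_sum]
  exact Finset.sum_congr rfl fun α _ => kr_monomial D α _

theorem sum_of_homog {d : ℕ} {F : MvPolynomial (Fin 3) K} (hF : F.IsHomogeneous d)
    {α : Fin 3 →₀ ℕ} (hα : F.coeff α ≠ 0) : α 0 + α 1 + α 2 = d := by
  have := hF hα
  rw [Finsupp.weight_apply, Finsupp.sum_fintype _ _ (fun i => by simp), Fin.sum_univ_three] at this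
  simpa using this

theorem kr_eq_zero {d D : ℕ} (hD : d < D) {F : MvPolynomial (Fin 3) K} (hF : F.IsHomogeneous d)
    (h : kr K D F = 0) : F = 0 := by
  ext s
  rw [MvPolynomial.coeff_zero]
  by_contra hs
  have h1 := congrArg (fun f : K[X] => f.coeff (D * s 0 + s 1)) h
  simp only [kr_eq_sum, finsetSum_coeff, coeff_C_mul, coeff_X_pow, coeff_zero] at h1
  rw [Finset.sum_eq_single s] at h1
  · rw [if_pos rfl, mul_one] at h1
    exact hs h1
  · intro β hβ hne
    rw [if_neg, mul_zero]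
    intro he
    apply hne
    have e1 := sum_of_homog hF hs
    have e2 := sum_of_homog hF (MvPolynomial.mem_support_iff.1 hβ)
    have h0 : s 0 = β 0 := by
      have a1 : (D * s 0 + s 1) / D = s 0 := by
        rw [Nat.mul_add_div (by omega), Nat.div_eq_of_lt (by omega), add_zero]
      have a2 : (D * β 0 + β 1) / D = β 0 := by
        rw [Nat.mul_add_div (by omega), Nat.div_eq_of_lt (by omega), add_zero]
      rw [← a1, ← a2, he]
    have h1' : s 1 = β 1 := by
      rw [h0] at he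
      omega
    ext i
    fin_cases i
    · exact h0.symm
    · exact h1'.symm
    · show β 2 = s 2
      omega
  · intro hns
    exact absurd (MvPolynomial.mem_support_iff.2 hs) hns

/-- the image of `V I d` under Kronecker substitution -/
noncomputable def krmap (I : Ideal (MvPolynomial (Fin 3) K)) (d D : ℕ) : V I d →ₗ[K] K[X] :=
  (kr K D).toLinearMap.comp (V I d).subtype

theorem krmap_inj (I : Ideal (MvPolynomial (Fin 3) K)) {d D : ℕ} (hD : d < D) :
    Function.Injective (krmap I d D) := by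
  rw [← LinearMap.ker_eq_bot, LinearMap.ker_eq_bot']
  intro f hf
  exact Subtype.ext (kr_eq_zero hD (mem_V.1 f.2).1 hf)

theorem krmap_rank (I : Ideal (MvPolynomial (Fin 3) K)) {d D : ℕ} (hD : d < D) :
    Module.finrank K (LinearMap.range (krmap I d D)) = Module.finrank K (V I d) :=
  LinearMap.finrank_range_of_inj (krmap_inj I hD)

theorem hopf (I₁ I₂ I₃ : Ideal (MvPolynomial (Fin 3) K)) (d₁ d₂ : ℕ)
    (h : ∀ f ∈ I₁, ∀ g ∈ I₂, f * g ∈ I₃) (h1 : 0 < Module.finrank K (V I₁ d₁))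
    (h2 : 0 < Module.finrank K (V I₂ d₂)) :
    Module.finrank K (V I₁ d₁) + Module.finrank K (V I₂ d₂) ≤
      Module.finrank K (V I₃ (d₁ + d₂)) + 1 := by
  have := V_fin I₁ d₁
  have := V_fin I₂ d₂
  have := V_fin I₃ (d₁ + d₂)
  have e1 := krmap_rank I₁ (show d₁ < d₁ + d₂ + 1 by omega)
  have e2 := krmap_rank I₂ (show d₂ < d₁ + d₂ + 1 by omega)
  have e3 := krmap_rank I₃ (show d₁ + d₂ < d₁ + d₂ + 1 by omega)
  rw [← e1, ← e2, ← e3]
  refine hopf_poly _ _ _ ?_ (by rw [e1]; exact h1) (by rw [e2]; exact h2)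
  rintro _ ⟨f, rfl⟩ _ ⟨g, rfl⟩
  refine ⟨⟨f.1 * g.1, mem_V.2 ⟨(mem_V.1 f.2).1.mul (mem_V.1 g.2).1,
    h _ (mem_V.1 f.2).2 _ (mem_V.1 g.2).2⟩⟩, ?_⟩
  exact map_mul (kr K (d₁ + d₂ + 1)) f.1 g.1

theorem hopf_pow (J : ℕ → Ideal (MvPolynomial (Fin 3) K))
    (hJ : ∀ a b, ∀ f ∈ J a, ∀ g ∈ J b, f * g ∈ J (a + b)) (m d : ℕ)
    (h : 0 < Module.finrank K (V (J m) d)) (k : ℕ) :
    (k + 1) * (Module.finrank K (V (J m) d) - 1) + 1 ≤
      Module.finrank K (V (J ((k + 1) * m)) ((k + 1) * d)) := by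
  induction k with
  | zero =>
    have e1 : (0 + 1) * m = m := by ring
    have e2 : (0 + 1) * d = d := by ring
    rw [e1, e2]
    omega
  | succ k ih =>
    have h1 := hopf (J ((k + 1) * m)) (J m) (J ((k + 1) * m + m)) ((k + 1) * d) d
      (hJ _ _) (by omega) h
    have e1 : (k + 1 + 1) * m = (k + 1) * m + m := by ring
    have e2 : (k + 1 + 1) * d = (k + 1) * d + d := by ring
    rw [e1, e2]
    have e3 : (k + 1 + 1) * (Module.finrank K (V (J m) d) - 1) =
      (k + 1) * (Module.finrank K (V (J m) d) - 1) + (Module.finrank K (V (J m) d) - 1) := by ring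
    omega

end Pool.Agent.K3h87.HH
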