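import Pool.Agent.K3h87.HH.Low

/-!
# Ten points
-/

set_option autoImplicit false

namespace Pool.Agent.K3h87.HH

open MvPolynomial Pool.Agent.H932R2

variable {L : Type} [Field L]

theorem ten {m : ℕ} (hm : 1 ≤ m) {P : Fin 10 → Fin 2 → L}
    (h : ∀ M : ℕ, 1 ≤ M → M ≤ m + 36 → Good 10 P M) (d : ℕ) :
    (Module.finrank L (V (JJ P m) d) : ℝ) ≤ max 0 (ee 10 m d) + 9 / 25 * m + 13 := by
  obtain ⟨s, hs⟩ : ∃ s, s = √((10 : ℕ) : ℝ) := ⟨_, rfl⟩
  have hss : s * s = 10 := by
    rw [hs, Real.mul_self_sqrt (Nat.cast_nonneg _)]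
    norm_num
  have hs0 : 0 ≤ s := by rw [hs]; exact Real.sqrt_nonneg _
  have hs1 : s < 3.162278 := by nlinarith
  have hs2 : 3.162277 < s := by nlinarith
  have hm0 : (0 : ℝ) ≤ m := Nat.cast_nonneg m
  have hmax : 0 ≤ max 0 (ee 10 m d) := le_max_left _ _
  have hmax' : ee 10 m d ≤ max 0 (ee 10 m d) := le_max_right _ _
  obtain ⟨x, hx⟩ : ∃ x : ℝ, x = d - s * m := ⟨_, rfl⟩
  have hd : (d : ℝ) = x + s * m := by rw [hx]; ring
  have hee : ee 10 m d = s * (m * x) + x ^ 2 / 2 + 3 * x / 2 + 1 + (3 * s / 2 - 5) * m := by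
    unfold ee
    rw [hd]
    push_cast
    linear_combination (m : ℝ) ^ 2 / 2 * hss
  have hpair : ∀ m' d' : ℕ, 1 ≤ m' → m' ≤ 36 → 1 ≤ ee 10 m' d' →
      s - 3 < x + d' - s * m' →
      (Module.finrank L (V (JJ P m) d) : ℝ) ≤
        max 0 (ee 10 m d + ((d : ℝ) * d' - 10 * m * m')) := by
    intro m' d' h1 h2 h3 h4
    have h5 := main_three (n := 10) (m := m) (m' := m') (d := d) (d' := d') (by norm_num)
      (h m' h1 (by omega)) (h (m + m') (by omega) (by omega)) h3 (by
        rw [← hs, hd]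
        linarith)
    exact_mod_cast h5
  rcases lt_or_ge x 0 with hx0 | hx0
  · -- below the window
    have h1 := (expDim_iff P m d).1 (h m hm (by omega) d (Or.inl (by
      refine lt_of_le_of_lt (min_le_left _ _) ?_
      rw [← hs, hd]
      linarith)))
    have h2 := cast_expected 10 m d
    rcases le_total (10 * (m + 1).choose 2) ((d + 2).choose 2) with hle | hle
    · rw [h1, Nat.cast_sub hle, h2]
      have : ((d : ℝ) + 1) * (d + 2) / 2 - ((10 : ℕ) : ℝ) * (m * (m + 1) / 2) = ee 10 m d := rfl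
      rw [this]
      linarith
    · rw [h1, Nat.sub_eq_zero_of_le hle, Nat.cast_zero]
      linarith
  rcases lt_or_ge (s - 3) x with hxw | hxw
  · -- above the window
    have h1 := upper_far (n := 10) (m := m) (d := d) (by norm_num) (h m hm (by omega)) (by
      rw [← hs, hd]
      linarith)
    rw [h1]
    linarith
  have hmx : 0 ≤ (m : ℝ) * x := mul_nonneg hm0 hx0
  rcases lt_or_ge (0.0570 : ℝ) x with h1 | h1
  · refine (hpair 24 76 (by norm_num) (by norm_num) (by unfold ee; norm_num) (by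
      push_cast; linarith)).trans ?_
    push_cast
    apply max_le
    · linarith
    · have e3 : s * (m : ℝ) ≤ 3.162278 * m := mul_le_mul_of_nonneg_right hs1.le hm0
      rw [hd]
      linarith
  rcases lt_or_ge (0.0307 : ℝ) x with h2 | h2
  · refine (hpair 30 95 (by norm_num) (by norm_num) (by unfold ee; norm_num) (by
      push_cast; linarith)).trans ?_
    push_cast
    apply max_le
    · linarith
    · have e1 : (m : ℝ) * x ≤ m * 0.0570 := mul_le_mul_of_nonneg_left h1 hm0
      have e2 : s * ((m : ℝ) * x) ≤ 3.162278 * (m * 0.0570) :=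
        mul_le_mul hs1.le e1 hmx (by norm_num)
      have e3 : s * (m : ℝ) ≤ 3.162278 * m := mul_le_mul_of_nonneg_right hs1.le hm0
      have e4 : x ^ 2 ≤ 1 := by
        have : x ≤ 1 := by linarith
        calc x ^ 2 ≤ 1 ^ 2 := pow_le_pow_left₀ hx0 this 2
          _ = 1 := by norm_num
      rw [hd]
      linarith
  rcases lt_or_ge (0.0043 : ℝ) x with h3 | h3
  · refine (hpair 36 114 (by norm_num) (by norm_num) (by unfold ee; norm_num) (by
      push_cast; linarith)).trans ?_
    push_cast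
    apply max_le
    · linarith
    · have e1 : (m : ℝ) * x ≤ m * 0.0307 := mul_le_mul_of_nonneg_left h2 hm0
      have e2 : s * ((m : ℝ) * x) ≤ 3.162278 * (m * 0.0307) :=
        mul_le_mul hs1.le e1 hmx (by norm_num)
      have e3 : s * (m : ℝ) ≤ 3.162278 * m := mul_le_mul_of_nonneg_right hs1.le hm0
      have e4 : x ^ 2 ≤ 1 := by
        have : x ≤ 1 := by linarith
        calc x ^ 2 ≤ 1 ^ 2 := pow_le_pow_left₀ hx0 this 2
          _ = 1 := by norm_num
      rw [hd]
      linarith
  · refine (hpair 5 16 (by norm_num) (by norm_num) (by unfold ee; norm_num) (by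
      push_cast; linarith)).trans ?_
    push_cast
    apply max_le
    · linarith
    · have e1 : (m : ℝ) * x ≤ m * 0.0043 := mul_le_mul_of_nonneg_left h3 hm0
      have e2 : s * ((m : ℝ) * x) ≤ 3.162278 * (m * 0.0043) :=
        mul_le_mul hs1.le e1 hmx (by norm_num)
      have e3 : s * (m : ℝ) ≤ 3.162278 * m := mul_le_mul_of_nonneg_right hs1.le hm0
      have e4 : x ^ 2 ≤ 1 := by
        have : x ≤ 1 := by linarith
        calc x ^ 2 ≤ 1 ^ 2 := pow_le_pow_left₀ hx0 this 2
          _ = 1 := by norm_num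
      rw [hd]
      linarith

end Pool.Agent.K3h87.HH
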